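import Pool.Agent.Work.MP_7084a3_full.All

set_option autoImplicit false

/-! # MP_7084a3_al: the isomorphism problem for infinity-free two-dimensional Artin groups

`Art M` is the Artin group of the Coxeter matrix `M` (an entry `0` stands for infinity). The
hypotheses say that all entries are finite, that there are at least two generators and that
`1 / M s t + 1 / M t r + 1 / M s r ≤ 1` for all triples of distinct generators, that is, that the
Artin group is infinity-free and two-dimensional. -/

open Pool.HA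

/-- Two infinity-free two-dimensional Artin groups are isomorphic if and only if their Coxeter
matrices are the same up to relabelling of the generators. -/
theorem Pool.Agent.Results.MP_7084a3_al.FullRigidity.result
    (S S' : Type) [Finite S] [Finite S'] (M : CoxeterMatrix S) (M' : CoxeterMatrix S')
    (h0 : ∀ s t, M s t ≠ 0) (h0' : ∀ s t, M' s t ≠ 0)
    (h1 : ∀ s t r, s ≠ t → t ≠ r → s ≠ r →
      (1 : ℚ) / (M s t : ℚ) + 1 / (M t r : ℚ) + 1 / (M s r : ℚ) ≤ 1)
    (h1' : ∀ s t r, s ≠ t → t ≠ r → s ≠ r →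
      (1 : ℚ) / (M' s t : ℚ) + 1 / (M' t r : ℚ) + 1 / (M' s r : ℚ) ≤ 1)
    (h2 : 2 ≤ Nat.card S) (h2' : 2 ≤ Nat.card S') :
    Nonempty (Art M ≃* Art M') ↔ ∃ e : S ≃ S', ∀ s t, M' (e s) (e t) = M s t :=
  Pool.HE.S_MAIN S S' M M' ⟨h0, h1⟩ ⟨h0', h1'⟩ h2 h2'
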